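import Pool.Agent.MT100GO.Stmts
import Pool.Agent.Helper29_MTG.Elg

/-!
# MT100GO, module ELG: elimination of the unknown rational structure, windows and density
(orthogonal case)
-/

set_option autoImplicit false

namespace Pool.Agent.MT100GO.H29

open Matrix Filter Topology Pool.Agent.MT100 Pool.Agent.MT100G Pool.Agent.Helper26_MT100
open Pool.Agent.MT100G.H29 (aut_mul one_aut prod_mul mulVec_row sum_prod greedy_group)

variable {d : Type} [Fintype d] [DecidableEq d]

/-! ### The exponential belongs to the special orthogonal group -/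

lemma saut_mul {J0 : Matrix d d ℚ} {g h : Matrix d d ℂ} (hg : g ∈ SAut J0) (hh : h ∈ SAut J0) :
    g * h ∈ SAut J0 :=
  ⟨aut_mul hg.1 hh.1, by rw [Matrix.det_mul, hg.2, hh.2, mul_one]⟩

lemma one_saut (J0 : Matrix d d ℚ) : (1 : Matrix d d ℂ) ∈ SAut J0 :=
  ⟨one_aut J0, Matrix.det_one⟩

lemma eN_aut (F : FamO d) (x : ℂ) : eN F.N x ∈ Aut F.J0 := by
  have hn := F.sys.nil
  set J : Matrix d d ℂ := F.J0.map (algebraMap ℚ ℂ) with hJ
  have hcast : (F.N.map (fun x : ℤ => (x : ℚ))).map (algebraMap ℚ ℂ) = H27.NR F.N ℂ := by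
    ext i j
    simp [H27.NR]
  have hflat : (H27.NR F.N ℂ)ᵀ * J + J * H27.NR F.N ℂ = 0 := by
    have h := congrArg (fun M : Matrix d d ℚ => (algebraMap ℚ ℂ).mapMatrix M) F.flat
    simp only [map_add, map_mul, map_zero, RingHom.mapMatrix_apply] at h
    rw [← hcast]
    exact h
  have hsc : SemiconjBy J (-H27.NR F.N ℂ) (H27.NR F.N ℂ)ᵀ := by
    show J * (-H27.NR F.N ℂ) = (H27.NR F.N ℂ)ᵀ * J
    rw [Matrix.mul_neg, eq_comm]
    exact eq_neg_of_add_eq_zero_left hflat
  have key : (eN F.N x)ᵀ * J = J * eN F.N (-x) := by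
    unfold eN
    rw [Matrix.transpose_sum, Finset.sum_mul, Finset.mul_sum]
    refine Finset.sum_congr rfl fun j _ => ?_
    rw [← H27.NR_pow, Matrix.transpose_smul, Matrix.transpose_pow, Matrix.smul_mul,
      Matrix.mul_smul]
    have h1 : J * (-H27.NR F.N ℂ) ^ j = (H27.NR F.N ℂ)ᵀ ^ j * J := hsc.pow_right j
    rw [← h1, neg_pow, neg_pow x j]
    rw [← Matrix.mul_assoc]
    rcases Nat.even_or_odd j with hj | hj
    · rw [hj.neg_one_pow, hj.neg_one_pow, Matrix.mul_one, one_mul]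
    · rw [hj.neg_one_pow, hj.neg_one_pow, Matrix.mul_neg, Matrix.mul_one, neg_one_mul,
        Matrix.neg_mul, smul_neg, smul_neg, neg_smul]
  show (eN F.N x)ᵀ * J * eN F.N x = J
  rw [key, Matrix.mul_assoc, H27.eN_mul hn, neg_add_cancel, H27.eN_zero hn, Matrix.mul_one]

lemma eN_saut (F : FamO d) (x : ℂ) : eN F.N x ∈ SAut F.J0 := by
  refine ⟨eN_aut F x, ?_⟩
  have hn := F.sys.nil
  have h1 : eN F.N (x / 2) * eN F.N (x / 2) = eN F.N x := by
    rw [H27.eN_mul hn, add_halves]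
  have h2 : (eN F.N (x / 2))ᵀ * F.J0.map (algebraMap ℚ ℂ) * eN F.N (x / 2) =
      F.J0.map (algebraMap ℚ ℂ) := eN_aut F (x / 2)
  have h3 : (F.J0.map (algebraMap ℚ ℂ)).det ≠ 0 := by
    have h4 : (F.J0.map (algebraMap ℚ ℂ)).det = algebraMap ℚ ℂ F.J0.det := by
      have h5 := RingHom.map_det (algebraMap ℚ ℂ) F.J0
      rw [RingHom.mapMatrix_apply] at h5
      exact h5.symm
    rw [h4]
    exact (map_ne_zero _).2 F.unit.ne_zero
  have h6 := congrArg Matrix.det h2
  rw [Matrix.det_mul, Matrix.det_mul, Matrix.det_transpose] at h6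
  have h7 : (eN F.N (x / 2)).det * (eN F.N (x / 2)).det = 1 := by
    apply mul_right_cancel₀ h3
    linear_combination h6
  rw [← h1, Matrix.det_mul, h7]

/-! ### Values -/

lemma yh_value (hvag : VagStmt) (hbas : BasStmt) (F : FamO d) (κ : ℕ) : ∃ n3 : ℕ, ∀ n ≥ n3,
    YH F.H F.N ((n - κ : ℕ) : ℂ) = tvO F κ n * eN F.N ((-(Real.log n) : ℝ) : ℂ) := by
  obtain ⟨R, hR0, -, hreal⟩ := hbas d F.H F.K F.N F.q F.B F.sys
  have hv := hvag d F.H F.N F.sys.nil F.sys.gH Polynomial.X (by simp) (by simp) κ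
  have hv' := (tendsto_natCast_atTop_atTop (R := ℝ)).eventually hv
  have hR' : ∀ᶠ n : ℕ in atTop, R + κ < (n : ℝ) :=
    tendsto_natCast_atTop_atTop.eventually_gt_atTop (R + κ)
  obtain ⟨n3, hn3⟩ := eventually_atTop.mp (hv'.and hR')
  refine ⟨max n3 κ, fun n hn => ?_⟩
  obtain ⟨h1, h2⟩ := hn3 n (le_trans (le_max_left _ _) hn)
  have hκ : κ ≤ n := le_trans (le_max_right _ _) hn
  have hcast : ((n - κ : ℕ) : ℂ) = (((n : ℝ) - κ : ℝ) : ℂ) := by
    rw [Nat.cast_sub hκ]
    push_cast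
    rfl
  have hpv : ∀ y : ℝ, pv Polynomial.X y = y := by
    intro y
    unfold pv
    rw [Polynomial.map_X, Polynomial.eval_X]
  rw [hpv, Polynomial.natDegree_X, Polynomial.leadingCoeff_X] at h1
  rw [hcast, hreal _ (by linarith), h1, Matrix.map_mul]
  have h3 : ((TrG F.H F.N Polynomial.X κ).map (fun f => ev f ((n : ℝ))⁻¹)).map
      (algebraMap ℝ ℂ) = tvO F κ n := by
    ext i j
    rfl
  have h4 : (eN F.N (-((((1 : ℕ) : ℝ)) * Real.log n + Real.log ((1 : ℚ) : ℝ)))).map
      (algebraMap ℝ ℂ) = eN F.N ((-(Real.log n) : ℝ) : ℂ) := by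
    rw [H27.map_eN]
    congr 1
    simp
  rw [h3, h4]

/-- the relations of NUM for families of rows -/
lemma num_rows (hnum : NumStmt) (F : FamO d) (hd : 5 ≤ Fintype.card d) (k n' : ℕ) (κ : Fin n' → ℕ)
    (hκ : Function.Injective κ) : ∃ n0 : ℕ, ∀ n ≥ n0, ∀ (a : Fin n' → Fin k → d)
      (c : (Fin n' → Fin k → d) → ℚ),
      ∑ β, algebraMap ℚ ℂ (c β) * ∏ i, ∏ j, tvO F (κ i) n (a i j) (β i j) = 0 →
      ∀ g : Fin n' → Matrix d d ℂ, (∀ i, g i ∈ SAut F.J0) →
        ∑ β, algebraMap ℚ ℂ (c β) * ∏ i, ∏ j, (tvO F (κ i) n * g i) (a i j) (β i j) = 0 := by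
  classical
  obtain ⟨n0, hn0⟩ := hnum d F hd (Fin n') κ hκ k
  refine ⟨n0, fun n hn a c hc g hg => ?_⟩
  set a' : Fin n' × Fin k → d := fun s => a s.1 s.2 with ha'
  have key : ∀ G : Fin n' → Matrix d d ℂ,
      ∑ β, ∑ α : Fin n' × Fin k → d, (((if β = a' then c (fun i j => α (i, j)) else 0 : ℚ)) : ℂ) *
        ∏ s : Fin n' × Fin k, G s.1 (β s) (α s) =
      ∑ β, algebraMap ℚ ℂ (c β) * ∏ i, ∏ j, G i (a i j) (β i j) := by
    intro G
    rw [Finset.sum_eq_single a']
    · rw [← (Equiv.curry (Fin n') (Fin k) d).sum_comp]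
      refine Finset.sum_congr rfl fun α _ => ?_
      rw [if_pos rfl, Fintype.prod_prod_type, eq_ratCast (algebraMap ℚ ℂ)]
      rfl
    · intro β _ hβ
      refine Finset.sum_eq_zero fun α _ => ?_
      rw [if_neg hβ]
      simp
    · intro h
      exact absurd (Finset.mem_univ _) h
  have h1 := hn0 n hn (fun β α => if β = a' then c (fun i j => α (i, j)) else 0) (by
    rw [key (fun i => tvO F (κ i) n)]
    exact hc) g hg
  rw [key (fun i => tvO F (κ i) n * g i)] at h1
  exact h1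

/-- ELG. -/
theorem elg (hnum : NumStmt) (hvag : VagStmt) (hbas : BasStmt) : ElgStmt := by
  classical
  intro d _ _ F hd k A
  obtain ⟨D, hD⟩ : ∃ D, D = (Fintype.card d ^ k) ^ 2 := ⟨_, rfl⟩
  have hcard : Fintype.card (Fin k → d) ^ 2 = D := by
    rw [hD, Fintype.card_fun, Fintype.card_fin]
  have hN : ∀ K n' : ℕ, ∀ κ : Fin n' → Fin K, ∃ n0 : ℕ, Function.Injective κ → ∀ n ≥ n0,
      ∀ (a : Fin n' → Fin k → d) (c : (Fin n' → Fin k → d) → ℚ),
      ∑ β, algebraMap ℚ ℂ (c β) * ∏ i, ∏ j, tvO F (κ i) n (a i j) (β i j) = 0 →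
      ∀ g : Fin n' → Matrix d d ℂ, (∀ i, g i ∈ SAut F.J0) →
        ∑ β, algebraMap ℚ ℂ (c β) * ∏ i, ∏ j, (tvO F (κ i) n * g i) (a i j) (β i j) = 0 := by
    intro K n' κ
    by_cases hκ : Function.Injective κ
    · obtain ⟨n0, hn0⟩ := num_rows hnum F hd k n' (fun i => (κ i : ℕ))
        (Fin.val_injective.comp hκ)
      exact ⟨n0, fun _ => hn0⟩
    · exact ⟨0, fun h => absurd h hκ⟩
  choose n0 hn0 using hN
  choose n3 hn3 using yh_value hvag hbas F
  set n1 : ℕ → ℕ := fun K => max K (max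
    ((Finset.range (D + 2)).sup fun n' => Finset.univ.sup (n0 K n'))
    ((Finset.range K).sup n3)) with hn1
  refine ⟨n1, fun P _ S hS => ?_⟩
  have hw : ∀ K : ℕ, ∀ n ≥ n1 K, (S ∩ Set.Ioc (n - K) n).ncard ≤ D := by
    intro K n hn
    have hKn : K ≤ n := le_trans (le_max_left _ _) hn
    have hna : ((Finset.range (D + 2)).sup fun n' => Finset.univ.sup (n0 K n')) ≤ n :=
      le_trans (le_trans (le_max_left _ _) (le_max_right _ _)) hn
    have hnb : (Finset.range K).sup n3 ≤ n :=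
      le_trans (le_trans (le_max_right _ _) (le_max_right _ _)) hn
    by_contra hcon
    push Not at hcon
    have hfin : (S ∩ Set.Ioc (n - K) n).Finite :=
      (Set.finite_Ioc _ _).subset Set.inter_subset_right
    obtain ⟨T, hTsub, hTcard⟩ := Set.exists_subset_card_eq (Nat.succ_le_of_lt hcon)
    have hTfin : T.Finite := hfin.subset hTsub
    have e := hTfin.equivFinOfCardEq hTcard
    have hmem : ∀ i, ((e.symm i : T) : ℕ) ∈ S ∩ Set.Ioc (n - K) n := fun i =>
      hTsub (e.symm i).2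
    set κ : Fin (D + 1) → Fin K := fun i =>
      ⟨n - ((e.symm i : T) : ℕ), by
        have h1 := (hmem i).2.1
        have h2 := (hmem i).2.2
        omega⟩ with hκdef
    have hκinj : Function.Injective κ := by
      intro i j hij
      have h1 : n - ((e.symm i : T) : ℕ) = n - ((e.symm j : T) : ℕ) := congrArg Fin.val hij
      have h2 := (hmem i).2.2
      have h3 := (hmem j).2.2
      have h4 : ((e.symm i : T) : ℕ) = ((e.symm j : T) : ℕ) := by omega
      exact e.symm.injective (Subtype.ext h4)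
    have hκS : ∀ i, n - (κ i : ℕ) ∈ S := by
      intro i
      have h2 := (hmem i).2.2
      have h3 : n - (κ i : ℕ) = ((e.symm i : T) : ℕ) := by
        show n - (n - ((e.symm i : T) : ℕ)) = _
        omega
      rw [h3]
      exact (hmem i).1
    choose t ht ht2 using fun i => hS (n - (κ i : ℕ)) (hκS i)
    set E : Matrix d d ℂ := eN F.N ((-(Real.log n) : ℝ) : ℂ) with hE
    set E' : Matrix d d ℂ := eN F.N (-((-(Real.log n) : ℝ) : ℂ)) with hE'
    have hEE : E * E' = 1 := H27.eN_mul_neg F.sys.nil _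
    have hEE' : E' * E = 1 := by
      rw [hE, hE', H27.eN_mul F.sys.nil, neg_add_cancel, H27.eN_zero F.sys.nil]
    have hYH : ∀ i, YH F.H F.N ((n - (κ i : ℕ) : ℕ) : ℂ) = tvO F (κ i) n * E := by
      intro i
      apply hn3 (κ i) n
      exact le_trans (Finset.le_sup (f := n3) (Finset.mem_range.2 (κ i).2)) hnb
    obtain ⟨i, hi⟩ := greedy_group (k := ℚ) (K := ℂ) (ι := Fin k → d) (α := Fin k → d)
      (G := Matrix d d ℂ) (J := D + 1) (by rw [hcard]; exact Nat.lt_succ_self D) t A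
      (fun i a γ => ∏ j, tvO F (κ i) n (a j) (γ j)) (SAut F.J0) 1 (one_saut _)
      (fun i g a γ => ∏ j, (tvO F (κ i) n * g) (a j) (γ j))
      (fun i a => by
        funext γ
        rw [Matrix.mul_one])
      (fun β γ => ∏ j, (E * Pᵀ) (γ j) (β j))
      (by
        intro n' hn' a c hc g hg
        have h1 : n0 K n' (fun i => κ (Fin.castLE hn' i)) ≤ n := by
          refine le_trans ?_ hna
          refine le_trans (Finset.le_sup (f := n0 K n') (Finset.mem_univ _)) ?_
          exact Finset.le_sup (f := fun n' => Finset.univ.sup (n0 K n'))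
            (Finset.mem_range.2 (by omega))
        exact hn0 K n' (fun i => κ (Fin.castLE hn' i))
          (hκinj.comp (Fin.castLE_injective hn')) n h1 a c hc g hg)
      (by
        intro i a ha
        have h1 := ht i a ha
        unfold perO at h1
        rw [hYH i] at h1
        rw [sum_prod (t i) P (tvO F (κ i) n) E a] at h1
        exact h1)
    obtain ⟨g, hg, a, ha, hne⟩ := ht2 i
    apply hne
    have h1 := hi (E * g * E') (saut_mul (saut_mul (eN_saut F _) hg) (eN_saut F _)) a ha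
    rw [← sum_prod (t i) P (tvO F (κ i) n * (E * g * E')) E a] at h1
    have h2 : tvO F (κ i) n * (E * g * E') * E = YH F.H F.N ((n - (κ i : ℕ) : ℕ) : ℂ) * g := by
      rw [hYH i]
      calc tvO F (κ i) n * (E * g * E') * E = tvO F (κ i) n * E * g * (E' * E) := by
            simp only [Matrix.mul_assoc]
        _ = tvO F (κ i) n * E * g := by rw [hEE', Matrix.mul_one]
    rw [h2] at h1
    exact h1
  refine ⟨?_, ?_⟩
  · intro K n hn
    refine le_trans (le_of_eq ?_) (le_trans (hw K n hn) hD.le)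
    have hK : K ≤ n := le_trans (le_max_left _ _) hn
    have h3 : (S ∩ Set.Ioc (n - K) n) = {l : ℕ | l ∈ S ∧ n < l + K ∧ l ≤ n} := by
      ext l
      simp only [Set.mem_inter_iff, Set.mem_ofPred_eq, Set.mem_Ioc]
      constructor
      · rintro ⟨h4, h5, h6⟩
        exact ⟨h4, by omega, h6⟩
      · rintro ⟨h4, h5, h6⟩
        exact ⟨h4, by omega, h6⟩
    rw [h3]
    rfl
  · apply densZero_of
    exact density_of_windows _ _ fun K => ⟨n1 K, fun n hn => hw K n hn⟩

end Pool.Agent.MT100GO.H29
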