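import Pool.Agent.MT100GO.Stmts
import Pool.Agent.Helper63_MT100G.Tu1

/-! MT100GO, TU1: the tuples of monodromy matrices form a group (copy of the module of helper63). -/

set_option autoImplicit false

namespace Pool.Agent.MT100GO.H29

open Matrix Polynomial Pool.Agent.MT100 Pool.Agent.MT100G Pool.Agent.MT100G.H63
open Pool.Agent.Helper78_MT
open Pool.Agent.MT100GO (MonStmt Tu1Stmt)

theorem tu1 (hM : MonStmt) : Tu1Stmt := by
  intro d _ _ F ι _ κ
  have hmon : ∀ t ∈ tup F.H F.N F.q F.B κ, ∀ i, t.1 i ∈ mon F.H F.N F.q F.B Set.univ :=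
    fun t ht i => tup_mon F.H F.N F.q F.B κ t ht i
  have hdet : ∀ t ∈ tup F.H F.N F.q F.B κ, ∀ i, IsUnit (t.1 i).det := fun t ht i =>
    aut_det F.J0 F.unit _ ((hM d F).1 (hmon t ht i))
  refine ⟨hmon, ?_, ?_, ?_⟩
  · refine Filter.Eventually.of_forall fun c => ?_
    have h1 : (((c : ℂ), (1 : ℝ), (fun (_ : ι) => YH F.H F.N), Complex.log) : Pt ι d) =
        ((c : ℂ), (1 : ℝ), (fun (_ : ι) w => YH F.H F.N w * (1 : Matrix d d ℂ)),
          fun w => Complex.log w + 2 * Real.pi * Complex.I * ((0 : ℤ) : ℂ)) := by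
      simp
    show CntT F.q F.B κ (((c : ℂ), (1 : ℝ), (fun (_ : ι) => YH F.H F.N), Complex.log) : Pt ι d)
      ((c : ℂ), (1 : ℝ), (fun (_ : ι) w => YH F.H F.N w * (1 : Matrix d d ℂ)),
          fun w => Complex.log w + 2 * Real.pi * Complex.I * ((0 : ℤ) : ℂ))
    rw [← h1]
    exact Relation.ReflTransGen.refl
  · intro t ht t' ht'
    have h1 : ∀ᶠ c : ℝ in Filter.atTop, CntT F.q F.B κ
        ((c : ℂ), 1, (fun _ => YH F.H F.N), Complex.log)
        ((c : ℂ), 1, (fun i w => YH F.H F.N w * t.1 i),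
          fun w => Complex.log w + 2 * Real.pi * Complex.I * t.2) := ht
    have h2 : ∀ᶠ c : ℝ in Filter.atTop, CntT F.q F.B κ
        ((c : ℂ), 1, (fun _ => YH F.H F.N), Complex.log)
        ((c : ℂ), 1, (fun i w => YH F.H F.N w * t'.1 i),
          fun w => Complex.log w + 2 * Real.pi * Complex.I * t'.2) := ht'
    show ∀ᶠ c : ℝ in Filter.atTop, CntT F.q F.B κ
        ((c : ℂ), 1, (fun _ => YH F.H F.N), Complex.log)
        ((c : ℂ), 1, (fun i w => YH F.H F.N w * (t.1 i * t'.1 i)),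
          fun w => Complex.log w + 2 * Real.pi * Complex.I * ((t.2 + t'.2 : ℤ) : ℂ))
    filter_upwards [h1, h2] with c hc hc'
    have h3 := cntT_act hc t'.1 (hdet t' ht') t'.2
    have h4 := hc'.trans h3
    have h5 : act t'.1 t'.2 (((c : ℂ), 1, (fun i w => YH F.H F.N w * t.1 i),
          fun w => Complex.log w + 2 * Real.pi * Complex.I * t.2) : Pt ι d) =
        ((c : ℂ), 1, (fun i w => YH F.H F.N w * (t.1 i * t'.1 i)),
          fun w => Complex.log w + 2 * Real.pi * Complex.I * ((t.2 + t'.2 : ℤ) : ℂ)) := by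
      unfold act
      simp only [Matrix.mul_assoc, Int.cast_add, mul_add, add_assoc]
    rw [h5] at h4
    exact h4
  · intro t ht
    have h1 : ∀ᶠ c : ℝ in Filter.atTop, CntT F.q F.B κ
        ((c : ℂ), 1, (fun _ => YH F.H F.N), Complex.log)
        ((c : ℂ), 1, (fun i w => YH F.H F.N w * t.1 i),
          fun w => Complex.log w + 2 * Real.pi * Complex.I * t.2) := ht
    show ∀ᶠ c : ℝ in Filter.atTop, CntT F.q F.B κ
        ((c : ℂ), 1, (fun _ => YH F.H F.N), Complex.log)
        ((c : ℂ), 1, (fun i w => YH F.H F.N w * (t.1 i)⁻¹),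
          fun w => Complex.log w + 2 * Real.pi * Complex.I * ((-t.2 : ℤ) : ℂ))
    filter_upwards [h1] with c hc
    have hi : ∀ i, IsUnit ((t.1 i)⁻¹).det := fun i => by
      rw [Matrix.det_nonsing_inv]
      exact (hdet t ht i).ringInverse
    have h3 := cntT_act (cntT_symm hc) (fun i => (t.1 i)⁻¹) hi (-t.2)
    have h5 : act (fun i => (t.1 i)⁻¹) (-t.2)
        (((c : ℂ), 1, (fun i w => YH F.H F.N w * t.1 i),
          fun w => Complex.log w + 2 * Real.pi * Complex.I * t.2) : Pt ι d) =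
        ((c : ℂ), 1, (fun _ => YH F.H F.N), Complex.log) := by
      unfold act
      have h6 : ∀ i, t.1 i * (t.1 i)⁻¹ = 1 := fun i => Matrix.mul_nonsing_inv _ (hdet t ht i)
      simp only [Matrix.mul_assoc, h6, Matrix.mul_one, Int.cast_neg, mul_neg,
        add_neg_cancel_right]
    have h7 : act (fun i => (t.1 i)⁻¹) (-t.2)
        (((c : ℂ), 1, (fun _ => YH F.H F.N), Complex.log) : Pt ι d) =
        ((c : ℂ), 1, (fun i w => YH F.H F.N w * (t.1 i)⁻¹),
          fun w => Complex.log w + 2 * Real.pi * Complex.I * ((-t.2 : ℤ) : ℂ)) := rfl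
    rw [h5, h7] at h3
    exact h3

end Pool.Agent.MT100GO.H29
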