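import Pool.Agent.MT100GO.Stmts
import Pool.Agent.Helper90_MT100G.Tup

/-! MT100GO, TU2 and TU3: simultaneous continuation of the translates along a chain of discs (copy of
the module of helper90). -/

set_option autoImplicit false

namespace Pool.Agent.MT100GO.H29

open Matrix Pool.Agent.MT100 Pool.Agent.MT100G Pool.Agent.MT100G.H90 Metric
open Pool.Agent.MT100GO (Tu2Stmt Tu3Stmt HplStmt)

variable {d : Type} [Fintype d] [DecidableEq d]

/-- TU2 and TU3 -/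
theorem key (hO : OdeStmt) (hU : UniStmt) (hB : BasStmt) (hP : PerStmt) (F : FamO d)
    {ι : Type} [Fintype ι] (κ : ι → ℕ) (i : ι) (U : Set ℂ) (hUo : IsOpen U) (m' : ℝ)
    (hm' : {w : ℂ | m' < w.re} ⊆ U) (g : Matrix d d ℂ) (hg : g ∈ mon F.H F.N F.q F.B U) :
    ∃ t ∈ tup F.H F.N F.q F.B κ, t.1 i = g ∧ ∀ (j : ι) (m : ℝ),
      (∀ w ∈ U, m < (w + ((κ i : ℂ) - κ j)).re) → t.1 j ∈ mon F.H F.N F.q F.B {w | m < w.re} := by
  obtain ⟨R, hR0, hR, -⟩ := hB d F.H F.K F.N F.q F.B F.sys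
  obtain ⟨Km, hKm⟩ : ∃ Km : ℕ, ∀ j, κ j ≤ Km := ⟨∑ j, κ j, fun j =>
    Finset.single_le_sum (f := κ) (fun _ _ => Nat.zero_le _) (Finset.mem_univ j)⟩
  -- the bad set
  obtain ⟨Z, hZ⟩ : ∃ Z : Set ℂ, Z = {w : ℂ | w + κ i = 0} ∪
      ⋃ j : ι, {w : ℂ | ¬ Reg F.q (w + κ i - κ j)} := ⟨_, rfl⟩
  have hZf : Z.Finite := by
    rw [hZ]
    refine Set.Finite.union ?_ (Set.finite_iUnion fun j => ?_)
    · refine (Set.finite_singleton (-(κ i : ℂ))).subset ?_
      intro w hw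
      exact eq_neg_of_add_eq_zero_left hw
    · have h1 : {w : ℂ | ¬ Reg F.q (w + κ i - κ j)} =
          (fun w : ℂ => w + κ i - κ j) ⁻¹' {w : ℂ | ¬ Reg F.q w} := rfl
      rw [h1]
      refine (finite_bad F.sys.q0).preimage ?_
      intro a _ b _ hab
      have h2 : a + κ i - κ j = b + κ i - κ j := hab
      linear_combination h2
  have hZreg : ∀ w ∈ U \ Z, w + κ i ≠ 0 ∧ ∀ j, Reg F.q (w + κ i - κ j) := by
    intro w hw
    rw [hZ] at hw
    refine ⟨fun h => hw.2 (Or.inl h), fun j => ?_⟩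
    by_contra h
    exact hw.2 (Or.inr (Set.mem_iUnion.2 ⟨j, h⟩))
  -- a large centre
  have hg' : ∀ᶠ c : ℝ in Filter.atTop, Cnt F.q F.B U ((c : ℂ), 1, YH F.H F.N)
    ((c : ℂ), 1, fun w => YH F.H F.N w * g) := hg
  obtain ⟨c, ⟨hc1, hc2⟩, hc3, hc4⟩ := ((hg'.and (eventually_notMem hZf)).and
    ((Filter.eventually_ge_atTop (R + Km + 1)).and
      (Filter.eventually_ge_atTop (m' + 1)))).exists
  have hballU : ∀ c' : ℝ, m' + 1 ≤ c' → ball (c' : ℂ) 1 ⊆ U := by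
    intro c' hc' w hw
    apply hm'
    have h1 := re_of_mem_ball hw
    rw [Complex.ofReal_re] at h1
    show m' < w.re
    linarith
  have hballR : ∀ (c' : ℝ) (ρ : ℝ), ρ ≤ 1 → R + 1 ≤ c' → ball (c' : ℂ) ρ ⊆ {w | R < w.re} := by
    intro c' ρ hρ hc' w hw
    have h1 := re_of_mem_ball hw
    rw [Complex.ofReal_re] at h1
    show R < w.re
    linarith
  have hKm0 : (0 : ℝ) ≤ Km := Nat.cast_nonneg _
  have hκi : (0 : ℝ) ≤ κ i := Nat.cast_nonneg _
  obtain ⟨ε0, hε0, hper⟩ := hP d F.q F.B U hUo ((c : ℂ), 1, YH F.H F.N)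
    ((c : ℂ), 1, fun w => YH F.H F.N w * g) hc1
    (hR _ _ one_pos (hballR c 1 le_rfl (by linarith))) (hballU c hc4) Z hZf
    (c : ℂ) (mem_ball_self one_pos) hc2 (c : ℂ) (mem_ball_self one_pos) hc2
  obtain ⟨ε, hε, hεε0, hε1⟩ : ∃ ε : ℝ, 0 < ε ∧ ε ≤ ε0 ∧ ε ≤ 1 :=
    ⟨min ε0 1, lt_min hε0 one_pos, min_le_left _ _, min_le_right _ _⟩
  have hchain := hper ε ε hε hεε0 hε hεε0
  obtain ⟨C, hC⟩ : ∃ C : ℝ, C = c + κ i := ⟨_, rfl⟩
  have hCc : (C : ℂ) = (c : ℂ) + κ i := by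
    rw [hC]
    push_cast
    ring
  have hCR : R + Km + 1 ≤ C := by
    rw [hC]
    linarith
  have hb1 : SolT F.q F.B κ ((C : ℂ), ε, (fun _ => YH F.H F.N), Complex.log) := by
    rw [← bT_one]
    exact base_T hR0 hR κ Km hKm _ (fun _ => by rw [Matrix.det_one]; exact isUnit_one) 0 hε hε1
      hCR
  rw [hCc] at hb1
  obtain ⟨Y, L, hYi, hS, hT, hcomp⟩ := lift hO hU κ i (U \ Z) hZreg hchain
    (fun _ => YH F.H F.N) Complex.log rfl hb1
  simp only at hYi hS hT hcomp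
  have hcj : ∀ j : ι, (((C - κ j : ℝ) : ℝ) : ℂ) = (c : ℂ) + κ i - κ j := by
    intro j
    rw [Complex.ofReal_sub, hCc]
    push_cast
    ring
  have hCj : ∀ j : ι, R + 1 ≤ C - κ j := by
    intro j
    have h1 : (κ j : ℝ) ≤ Km := by exact_mod_cast hKm j
    linarith
  have hYHj : ∀ j : ι, SolOn F.q F.B ((c : ℂ) + κ i - κ j) ε (YH F.H F.N) := by
    intro j
    rw [← hcj]
    exact hR _ _ hε (hballR _ _ hε1 (hCj j))
  have ht : ∀ j : ι, ∃ tj : Matrix d d ℂ, IsUnit tj.det ∧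
      ∀ w ∈ ball ((c : ℂ) + κ i - κ j) ε, Y j w = YH F.H F.N w * tj := by
    intro j
    exact uni_sol hU (hYHj j) (hS.2.1 j) (ball ((c : ℂ) + κ i - κ j) ε) isOpen_ball
      (convex_ball _ _) le_rfl le_rfl ⟨_, mem_ball_self hε⟩
  choose t htu ht using ht
  have hti : t i = g := by
    have hmem : (c : ℂ) + κ i - κ i ∈ ball ((c : ℂ) + κ i - κ i) ε := mem_ball_self hε
    have h1 := ht i _ hmem
    rw [hYi] at h1
    have h2 := (hYHj i).det _ hmem
    have h3 := congrArg (fun M => (YH F.H F.N ((c : ℂ) + κ i - κ i))⁻¹ * M) h1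
    simp only at h3
    rw [← Matrix.mul_assoc, ← Matrix.mul_assoc, Matrix.nonsing_inv_mul _ h2, Matrix.one_mul,
      Matrix.one_mul] at h3
    exact h3.symm
  -- the logarithm
  obtain ⟨k, hk⟩ := log_diff (V := ball ((c : ℂ) + κ i) ε) isOpen_ball
    (convex_ball _ _).isPreconnected ⟨_, mem_ball_self hε⟩ (L := L) (L' := Complex.log)
    hS.2.2.2 hb1.2.2.2 (fun w hw => (hS.2.2.1 w hw).2) (fun w hw => (hb1.2.2.1 w hw).2)
  have hsub : ball ((C : ℂ)) ε ⊆ ball ((C : ℂ)) 1 := ball_subset_ball hε1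
  have hone : ∀ _j : ι, IsUnit ((1 : Matrix d d ℂ)).det := fun _ => by
    rw [Matrix.det_one]
    exact isUnit_one
  have hB1 := base_T hR0 hR κ Km hKm (fun _ => 1) hone 0 one_pos le_rfl hCR
  have hBt := base_T hR0 hR κ Km hKm t htu k one_pos le_rfl hCR
  have hfinal : CntT F.q F.B κ (bT F.H F.N (fun _ => 1) 0 1 C) (bT F.H F.N t k 1 C) := by
    have e1 : StpT F.q F.B κ (bT F.H F.N (fun _ => 1) 0 1 C)
        ((c : ℂ) + κ i, ε, (fun _ => YH F.H F.N), Complex.log) := by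
      refine ⟨hB1, hb1, ⟨(C : ℂ), mem_ball_self one_pos, ?_⟩, fun w _ => ?_⟩
      · rw [← hCc]
        exact mem_ball_self hε
      · rw [bT_one]
        exact ⟨fun j => rfl, rfl⟩
    have e2 : StpT F.q F.B κ ((c : ℂ) + κ i, ε, Y, L) (bT F.H F.N t k 1 C) := by
      refine ⟨hS, hBt, ⟨(C : ℂ), ?_, mem_ball_self one_pos⟩, fun w hw => ⟨fun j => ?_, ?_⟩⟩
      · rw [← hCc]
        exact mem_ball_self hε
      · apply ht j
        have h1 : w ∈ ball ((c : ℂ) + κ i) ε := hw.1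
        rw [sub_eq_add_neg ((c : ℂ) + κ i), mem_tr, sub_neg_eq_add, sub_add_cancel]
        exact h1
      · exact hk w hw.1
    exact (Relation.ReflTransGen.head e1 hT).tail e2
  refine ⟨(t, k), tup_of_one hR0 hR κ Km hKm t htu k hCR hfinal, hti, fun j m hjm => ?_⟩
  -- the components
  have hmm : m ≤ m' + (κ i - κ j) := by
    apply le_of_forall_pos_lt_add
    intro δ hδ
    have h1 := hjm ((m' + δ : ℝ) : ℂ) (hm' (by
      show m' < (((m' + δ : ℝ) : ℂ)).re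
      rw [Complex.ofReal_re]
      linarith))
    have h2 : (((m' + δ : ℝ) : ℂ) + ((κ i : ℂ) - κ j)).re = m' + δ + (κ i - κ j) := by simp
    rw [h2] at h1
    linarith
  have hCm : m + 1 ≤ C - κ j := by
    rw [hC]
    linarith
  have hbm : ∀ c' : ℝ, m + 1 ≤ c' → ball (c' : ℂ) 1 ⊆ {w | m < w.re} := by
    intro c' hc' w hw
    have h1 := re_of_mem_ball hw
    rw [Complex.ofReal_re] at h1
    show m < w.re
    linarith
  refine mon_of_one hR {w | m < w.re} (max (R + 1) (m + 1))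
    (fun c' hc' => ⟨hballR c' 1 le_rfl ((le_max_left _ _).trans hc'),
      hbm c' ((le_max_right _ _).trans hc')⟩) (htu j) (c := C - κ j)
    (max_le (hCj j) hCm) ?_
  have hmono : ∀ x y, Cnt F.q F.B (sh (U \ Z) ((κ i : ℂ) - κ j)) x y →
      Cnt F.q F.B {w | m < w.re} x y := by
    intro x y hxy
    refine Relation.ReflTransGen.mono ?_ _ _ hxy
    intro a b hab
    have hs : sh (U \ Z) ((κ i : ℂ) - κ j) ⊆ {w | m < w.re} := by
      intro w hw
      have h1 := hjm _ hw.1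
      rw [sub_add_cancel] at h1
      exact h1
    exact ⟨hab.1, hab.2.1, hab.2.2.1.trans hs, hab.2.2.2.1.trans hs, hab.2.2.2.2⟩
  have hmid := hmono _ _ (hcomp j)
  have hsol1 : SolOn F.q F.B (((C - κ j : ℝ) : ℝ) : ℂ) 1 (YH F.H F.N) :=
    hR _ _ one_pos (hballR _ _ le_rfl (hCj j))
  have hball1 : ball ((((C - κ j : ℝ) : ℝ) : ℂ)) ε ⊆ {w | m < w.re} :=
    (ball_subset_ball hε1).trans (hbm _ hCm)
  have e1 : Stp F.q F.B {w | m < w.re} ((((C - κ j : ℝ) : ℝ) : ℂ), 1, YH F.H F.N)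
      ((c : ℂ) + κ i - κ j, ε, YH F.H F.N) := by
    refine ⟨hsol1, hYHj j, hbm _ hCm, ?_, ⟨(((C - κ j : ℝ) : ℝ) : ℂ), mem_ball_self one_pos, ?_⟩,
      fun w _ => rfl⟩
    · rw [hcj] at hball1
      exact hball1
    · rw [hcj]
      exact mem_ball_self hε
  have e2 : Stp F.q F.B {w | m < w.re} ((c : ℂ) + κ i - κ j, ε, Y j)
      ((((C - κ j : ℝ) : ℝ) : ℂ), 1, fun w => YH F.H F.N w * t j) := by
    refine ⟨hS.2.1 j, SolOn.mul_const hsol1 (htu j), ?_, hbm _ hCm,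
      ⟨(((C - κ j : ℝ) : ℝ) : ℂ), ?_, mem_ball_self one_pos⟩, fun w hw => ht j w hw.1⟩
    · rw [hcj] at hball1
      exact hball1
    · rw [hcj]
      exact mem_ball_self hε
  exact (Relation.ReflTransGen.head e1 hmid).tail e2

/-- TU2 -/
theorem tu2 (hO : OdeStmt) (hU : UniStmt) (hB : BasStmt) (hP : PerStmt) : Tu2Stmt := by
  intro d _ _ F ι _ κ i g hg
  obtain ⟨t, ht, hti, -⟩ := key hO hU hB hP F κ i Set.univ isOpen_univ 0 (Set.subset_univ _) g hg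
  exact ⟨t, ht, hti⟩

/-- TU3 -/
theorem tu3 (hO : OdeStmt) (hU : UniStmt) (hB : BasStmt) (hP : PerStmt) (hH : HplStmt) :
    Tu3Stmt := by
  intro d _ _ F hd ι _ κ i
  obtain ⟨m1, ⟨g, hg, hgs⟩, hall⟩ := hH d F hd
  have hopen : IsOpen {w : ℂ | m1 < w.re} := isOpen_lt continuous_const Complex.continuous_re
  obtain ⟨t, ht, hti, hcomp⟩ := key hO hU hB hP F κ i {w | m1 < w.re} hopen m1 le_rfl g hg
  refine ⟨t, ht, by rw [hti]; exact hgs, fun i' hi' => hall _ (hcomp i' (m1 + 1) ?_)⟩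
  intro w hw
  have hw' : m1 < w.re := hw
  have h1 : (w + ((κ i : ℂ) - κ i')).re = w.re + (κ i - κ i') := by simp
  have h2 : (κ i' : ℝ) + 1 ≤ κ i := by exact_mod_cast hi'
  rw [h1]
  linarith

end Pool.Agent.MT100GO.H29
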